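import Mathlib
import Pool.Agent.Helper98.BH.Defs

/-!
# MP_59646b_lc, module BH-8b: the chain argument
-/

namespace Pool.Agent.BH

namespace Chain

lemma nil_mem_Tr (p a₁ a₂ c : Bai) : [] ∈ Tr p a₁ a₂ c := by
  intro i hi hi2
  simp at hi2
  omega

lemma length_res (f : Bai) (n : ℕ) : (res f n).length = n := by simp [res]

lemma getElem_res (f : Bai) (n i : ℕ) (h : i < (res f n).length) : (res f n)[i] = f i := by
  simp [res]

lemma take_res (f : Bai) {i n : ℕ} (h : i ≤ n) : (res f n).take i = res f i := by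
  apply List.ext_getElem
  · simp [length_res, h]
  · intro j h1 h2
    rw [List.getElem_take, getElem_res, getElem_res]

/-- the answers of the first player along an infinite branch -/
lemma inits_map_res (f h : Bai) (n : ℕ) :
    (res f n).inits.map (str h) = res (fun i => str h (res f i)) (n + 1) := by
  apply List.ext_getElem
  · simp [length_res]
  · intro j h1 h2
    rw [List.getElem_map, List.getElem_inits, getElem_res, take_res]
    rw [length_res] at h2
    omega

lemma inits_tail_map_res (f g : Bai) (n : ℕ) :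
    (res f n).inits.tail.map (str g) = res (fun i => str g (res f (i + 1))) n := by
  apply List.ext_getElem
  · simp [length_res]
  · intro j h1 h2
    rw [List.getElem_map, List.getElem_tail, List.getElem_inits, getElem_res, take_res]
    rw [length_res] at h2
    omega

lemma inits_map_prefix (F : List ℕ → ℕ) {a b : List ℕ} (h : a <+: b) :
    a.inits.map F <+: b.inits.map F := by
  have h1 : a = b.take a.length := (List.prefix_iff_eq_take.1 h)
  rw [h1, List.take_inits, List.map_take]
  exact List.take_prefix _ _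

lemma inits_tail_map_prefix (F : List ℕ → ℕ) {a b : List ℕ} (h : a <+: b) :
    a.inits.tail.map F <+: b.inits.tail.map F := by
  rw [List.map_tail, List.map_tail, ← List.drop_one, ← List.drop_one]
  exact List.IsPrefix.drop (inits_map_prefix F h) 1

/-- a strategy of the first player transports infinite branches backwards -/
lemma wf_of_stratI {a : Bai × Bai} {c s h : Bai} (hs : StratI (T1 a c) (T2 a s) h)
    (hc : WF (T1 a c)) : WF (T2 a s) := by
  rintro ⟨f, hf⟩
  refine hc ⟨fun i => str h (res f i), fun n => ?_⟩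
  cases n with
  | zero => exact nil_mem_Tr a.1 a.1 a.2 c
  | succ n =>
    have := hs _ (hf n)
    rwa [inits_map_res] at this

/-- a strategy of the second player transports infinite branches -/
lemma wf_of_stratII {a : Bai × Bai} {r s g : Bai} (hs : StratII (T1 a r) (T2 a s) g)
    (hc : WF (T2 a s)) : WF (T1 a r) := by
  rintro ⟨f, hf⟩
  refine hc ⟨fun i => str g (res f (i + 1)), fun n => ?_⟩
  have := hs _ (hf n)
  rwa [inits_tail_map_res] at this

end Chain

open Chain

/-- BH-8b -/
theorem chain (a : Bai × Bai) (h : (∃ c, WF (T1 a c)) ∨ ∃ c, WF (T2 a c)) :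
    (∃ c, WF (T1 a c) ∧ ∀ x, (c, x) ∈ B a) ∨ (∃ c, WF (T2 a c) ∧ ∀ x, (c, x) ∈ C a) := by
  by_contra hcon
  push Not at hcon
  obtain ⟨hB, hC⟩ := hcon
  -- the two transitions
  have h1 : ∀ c, WF (T1 a c) → ∃ s h, StratI (T1 a c) (T2 a s) h := by
    intro c hc
    obtain ⟨x, hx⟩ := hB c hc
    simp only [B, Set.mem_ofPred_eq, not_forall] at hx
    obtain ⟨s, h, hs, -⟩ := hx
    exact ⟨s, h, hs⟩
  have h2 : ∀ s, WF (T2 a s) → ∃ r g, StratII (T1 a r) (T2 a s) g := by
    intro s hs
    obtain ⟨x, hx⟩ := hC s hs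
    simp only [C, Set.mem_ofPred_eq, not_forall] at hx
    obtain ⟨r, g, hr, -⟩ := hx
    exact ⟨r, g, hr⟩
  -- one step of the chain
  have step : ∀ r : {r : Bai // WF (T1 a r)}, ∃ (r' : {r : Bai // WF (T1 a r)})
      (H : List ℕ → List ℕ), (∀ t ∈ T1 a r'.1, H t ∈ T1 a r.1) ∧
        (∀ t, (H t).length = t.length + 1) ∧ ∀ t t', t <+: t' → H t <+: H t' := by
    rintro ⟨r, hr⟩
    obtain ⟨s, h, hs⟩ := h1 r hr
    have hws := wf_of_stratI hs hr
    obtain ⟨r', g, hg⟩ := h2 s hws
    refine ⟨⟨r', wf_of_stratII hg hws⟩,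
      fun t => (t.inits.tail.map (str g)).inits.map (str h), fun t ht => hs _ (hg _ ht),
      fun t => by simp, fun t t' htt => ?_⟩
    exact inits_map_prefix _ (inits_tail_map_prefix _ htt)
  choose nxt H hH1 hH2 hH3 using step
  obtain ⟨r₀⟩ : Nonempty {r : Bai // WF (T1 a r)} := by
    rcases h with ⟨c, hc⟩ | ⟨s, hs⟩
    · exact ⟨⟨c, hc⟩⟩
    · obtain ⟨r', g, hg⟩ := h2 s hs
      exact ⟨⟨r', wf_of_stratII hg hs⟩⟩
  -- the approximations to the branch
  obtain ⟨E, hE0, hES⟩ : ∃ E : ℕ → {r : Bai // WF (T1 a r)} → List ℕ, (∀ r, E 0 r = []) ∧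
      ∀ n r, E (n + 1) r = H r (E n (nxt r)) :=
    ⟨fun n => Nat.rec (fun _ => []) (fun _ ih r => H r (ih (nxt r))) n, fun _ => rfl,
      fun _ _ => rfl⟩
  have hmem : ∀ n r, E n r ∈ T1 a r.1 := by
    intro n
    induction n with
    | zero => intro r; rw [hE0]; exact nil_mem_Tr _ _ _ _
    | succ n ih => intro r; rw [hES]; exact hH1 r _ (ih _)
  have hlen : ∀ n r, (E n r).length = n := by
    intro n
    induction n with
    | zero => intro r; rw [hE0]; rfl
    | succ n ih => intro r; rw [hES, hH2, ih]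
  have hpre : ∀ n r, E n r <+: E (n + 1) r := by
    intro n
    induction n with
    | zero => intro r; rw [hE0]; exact List.nil_prefix
    | succ n ih => intro r; rw [hES, hES (n + 1)]; exact hH3 r _ _ (ih _)
  refine r₀.2 ⟨fun i => (E (i + 1) r₀).getD i 0, fun n => ?_⟩
  have hpre2 : ∀ m n, m ≤ n → E m r₀ <+: E n r₀ := by
    intro m n hmn
    induction n, hmn using Nat.le_induction with
    | base => exact List.prefix_rfl
    | succ n _ ih => exact ih.trans (hpre n r₀)
  have : res (fun i => (E (i + 1) r₀).getD i 0) n = E n r₀ := by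
    apply List.ext_getElem
    · rw [length_res, hlen]
    · intro j h1 h2
      rw [getElem_res]
      have hj : j < n := by rwa [hlen] at h2
      have h3 := hpre2 (j + 1) n hj
      have h4 : j < (E (j + 1) r₀).length := by rw [hlen]; omega
      rw [List.getD_eq_getElem _ _ h4]
      exact h3.getElem h4
  rw [this]
  exact hmem n r₀

end Pool.Agent.BH
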