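import Mathlib
import Pool.Agent.Helper98.BH.Defs2

/-!
# MP_59646b_lc, module BH-5c: countable unions of completely Ramsey sets
-/

namespace Pool.Agent.BH

namespace Un

lemma exists_init (Y : Set ℕ) (hY : Y.Infinite) (i : ℕ) :
    ∃ t : Finset ℕ, (t : Set ℕ) ⊆ Y ∧ t.card = i ∧ ∀ n ∈ Y, n ∉ t → ∀ m ∈ t, m < n := by
  classical
  induction i with
  | zero => exact ⟨∅, by simp, by simp, by simp⟩
  | succ i ih =>
    obtain ⟨t, ht, hc, hlt⟩ := ih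
    have hinf : (Y \ (t : Set ℕ)).Infinite := hY.diff t.finite_toSet
    have hne : (Y \ (t : Set ℕ)).Nonempty := hinf.nonempty
    have hmem : sInf (Y \ (t : Set ℕ)) ∈ Y \ (t : Set ℕ) := Nat.sInf_mem hne
    have hnt : sInf (Y \ (t : Set ℕ)) ∉ t := fun hh => hmem.2 hh
    refine ⟨insert (sInf (Y \ (t : Set ℕ))) t, ?_, ?_, ?_⟩
    · rw [Finset.coe_insert]
      exact Set.insert_subset hmem.1 ht
    · rw [Finset.card_insert_of_notMem hnt, hc]
    · intro n hn hnn m hm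
      rw [Finset.mem_insert, not_or] at hnn
      rcases Finset.mem_insert.1 hm with rfl | hm
      · exact lt_of_le_of_ne (Nat.sInf_le ⟨hn, fun hh => hnn.2 hh⟩) (Ne.symm hnn.1)
      · exact hlt n hn hnn.2 m hm

lemma above_mono {s : Finset ℕ} {A B : Set ℕ} (h : B ⊆ A) : above s B ⊆ above s A :=
  fun _ hn => ⟨h hn.1, hn.2⟩

lemma Bas_mono {s : Finset ℕ} {A B : Set ℕ} (h : B ⊆ A) : Bas s B ⊆ Bas s A :=
  fun _ hX => ⟨hX.1, hX.2.1, hX.2.2.trans (above_mono h)⟩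

end Un

open Un

/-- BH-5c, with the two modules it uses as hypotheses -/
theorem CR_iUnion_of
    (hfus : ∀ (Φ : Finset ℕ → Set ℕ → Prop) (_ : ∀ t A B, B ⊆ A → Φ t A → Φ t B)
      (_ : ∀ t A, A.Infinite → ∃ B ⊆ A, B.Infinite ∧ Φ t B) (A : Set ℕ) (_ : A.Infinite),
      ∃ B ⊆ A, B.Infinite ∧ ∀ t : Finset ℕ, (t : Set ℕ) ⊆ B → Φ t (above t B))
    (hopen : ∀ D : Finset ℕ → Prop, CR {X | ∃ t, Init t X ∧ D t})
    (M : ℕ → Set (Set ℕ)) (h : ∀ i, CR (M i)) : CR (⋃ i, M i) := by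
  classical
  intro s A hA
  set Φ : Finset ℕ → Set ℕ → Prop := fun t A' => ∀ i ≤ t.card,
    (∀ X ∈ Bas (s ∪ t) A', X ∈ M i) ∨ (∀ X ∈ Bas (s ∪ t) A', X ∉ M i) with hΦdef
  have hmono : ∀ t A B, B ⊆ A → Φ t A → Φ t B := by
    intro t A B hBA hΦ i hi
    rcases hΦ i hi with h1 | h1
    · exact Or.inl fun X hX => h1 X (Bas_mono hBA hX)
    · exact Or.inr fun X hX => h1 X (Bas_mono hBA hX)
  have hdense : ∀ t A, A.Infinite → ∃ B ⊆ A, B.Infinite ∧ Φ t B := by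
    intro t A hA
    have key : ∀ k : ℕ, ∃ B ⊆ A, B.Infinite ∧ ∀ i < k,
        (∀ X ∈ Bas (s ∪ t) B, X ∈ M i) ∨ (∀ X ∈ Bas (s ∪ t) B, X ∉ M i) := by
      intro k
      induction k with
      | zero => exact ⟨A, subset_rfl, hA, fun i hi => absurd hi (Nat.not_lt_zero _)⟩
      | succ k ih =>
        obtain ⟨B, hBA, hB, hd⟩ := ih
        obtain ⟨B', hB'B, hB', hd'⟩ := h k (s ∪ t) B hB
        refine ⟨B', hB'B.trans hBA, hB', fun i hi => ?_⟩
        rcases Nat.lt_succ_iff_lt_or_eq.1 hi with hi | rfl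
        · rcases hd i hi with h1 | h1
          · exact Or.inl fun X hX => h1 X (Bas_mono hB'B hX)
          · exact Or.inr fun X hX => h1 X (Bas_mono hB'B hX)
        · exact hd'
    obtain ⟨B, hBA, hB, hd⟩ := key (t.card + 1)
    exact ⟨B, hBA, hB, fun i hi => hd i (Nat.lt_succ_of_le hi)⟩
  obtain ⟨B, hBA, hB, hΦ⟩ := hfus Φ hmono hdense A hA
  set D : Finset ℕ → Prop := fun t => s ⊆ t ∧ ∃ i, ∀ Y ∈ Bas t B, Y ∈ M i with hD
  obtain ⟨B', hB'B, hB', hdec⟩ := hopen D s B hB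
  refine ⟨B', hB'B.trans hBA, hB', ?_⟩
  rcases hdec with hpos | hneg
  · left
    intro X hX
    obtain ⟨t, hInit, hst, i, hi⟩ := hpos X hX
    refine Set.mem_iUnion.2 ⟨i, hi X ⟨hX.1, hInit.1, ?_⟩⟩
    rintro n ⟨hnX, hnt⟩
    have h1 : n ∈ above s B' := hX.2.2 ⟨hnX, fun hh => hnt (hst hh)⟩
    have h2 : n ∈ above t Set.univ := hInit.2 ⟨hnX, hnt⟩
    exact ⟨hB'B h1.1, h2.2⟩
  · right
    intro X hX hXM
    obtain ⟨i, hi⟩ := Set.mem_iUnion.1 hXM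
    have hYinf : (X \ (s : Set ℕ)).Infinite := hX.1.diff s.finite_toSet
    obtain ⟨t, htY, htc, htlt⟩ := exists_init _ hYinf i
    have hYs : ∀ n ∈ X \ (s : Set ℕ), n ∈ B' ∧ ∀ m ∈ s, m < n := fun n hn => hX.2.2 hn
    have htB : (t : Set ℕ) ⊆ B := fun n hn => hB'B (hYs n (htY hn)).1
    have hout : ∀ n ∈ X, n ∉ s ∪ t → n ∈ B ∧ (∀ m ∈ s, m < n) ∧ ∀ m ∈ t, m < n := by
      intro n hnX hn
      rw [Finset.mem_union, not_or] at hn
      have hnY : n ∈ X \ (s : Set ℕ) := ⟨hnX, fun hh => hn.1 hh⟩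
      exact ⟨hB'B (hYs n hnY).1, (hYs n hnY).2, htlt n hnY hn.2⟩
    have hsub : ((s ∪ t : Finset ℕ) : Set ℕ) ⊆ X := by
      intro n hn
      rw [Finset.coe_union] at hn
      rcases hn with hn | hn
      · exact hX.2.1 hn
      · exact (htY hn).1
    have hXB : X ∈ Bas (s ∪ t) (above t B) := by
      refine ⟨hX.1, hsub, ?_⟩
      rintro n ⟨hnX, hn⟩
      obtain ⟨h1, h2, h3⟩ := hout n hnX (fun hh => hn hh)
      refine ⟨⟨h1, h3⟩, fun m hm => ?_⟩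
      rcases Finset.mem_union.1 hm with hm | hm
      · exact h2 m hm
      · exact h3 m hm
    rcases hΦ t htB i htc.ge with h1 | h1
    · refine hneg X hX ⟨s ∪ t, ⟨hsub, ?_⟩, Finset.subset_union_left, i, fun Y hY => h1 Y ?_⟩
      · rintro n ⟨hnX, hn⟩
        obtain ⟨-, h2, h3⟩ := hout n hnX (fun hh => hn hh)
        refine ⟨trivial, fun m hm => ?_⟩
        rcases Finset.mem_union.1 hm with hm | hm
        · exact h2 m hm
        · exact h3 m hm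
      · refine ⟨hY.1, hY.2.1, fun n hn => ?_⟩
        have h4 := hY.2.2 hn
        exact ⟨⟨h4.1, fun m hm => h4.2 m (Finset.mem_union_right _ hm)⟩, h4.2⟩
    · exact h1 X hXB hi

end Pool.Agent.BH
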